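import Pool.Agent.N874.TF.Stm
import Pool.Agent.N595.PQ.SML
import Pool.Agent.N134.PQ.LDZ

set_option autoImplicit false

/-!
# Project TC (helper874), part SMLK (helper490): few discriminants divisible by squares of medium primes

This is theorem `sml` of `Pool/Agent/N595/PQ/SML.lean` (helper595) with any constant.
-/

open Polynomial

namespace Pool.Agent.N490.TF

open Pool.Agent.N783.PQ Pool.Agent.N595.PQ
open Pool.Agent.N352.PJ (dd pol dis Dy D2)

theorem smlk0 (h1 : S_LD) (h2 : S_BX) : Pool.Agent.N874.TC.S_SMLK := by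
  classical
  intro g hg L
  set K : ℕ := cc g * 3 ^ (2 * g) with hK
  refine ⟨L * K + 2 * g + 1, fun B W A hW hWB => ?_⟩
  set M : ℕ := L * K + 2 * g + 1 with hM
  set U : Set (Fin (2 * g) → ℤ) := {a ∈ Bx g B W A | ∃ P : ℕ, P.Prime ∧ M < P ∧ P ^ 2 < B ∧ ¬ P ∣ W ∧
    (P : ℤ) ^ 2 ∣ dis a} with hU
  have hBf : (Bx g B W A).Finite := (h2 g B W A hW hWB).1
  set X : ℕ := (Bx g B W A).ncard with hX
  set I : Finset ℕ := (Finset.Ioc M (max M B)).filter
    (fun P => P.Prime ∧ P ^ 2 < B ∧ ¬ P ∣ W) with hI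
  have hVf : ∀ P : ℕ, {a ∈ Bx g B W A | (P : ℤ) ^ 2 ∣ dis a}.Finite := fun P =>
    hBf.subset fun a ha => ha.1
  have hsub : U ⊆ ↑(I.biUnion fun P => (hVf P).toFinset) := by
    rintro a ⟨ha, P, hP, hMP, hPB, hPW, hd⟩
    simp only [Finset.coe_biUnion, Set.mem_iUnion, Finset.mem_coe]
    refine ⟨P, ?_, ?_⟩
    · rw [hI, Finset.mem_filter, Finset.mem_Ioc]
      refine ⟨⟨hMP, ?_⟩, hP, hPB, hPW⟩
      refine le_trans ?_ (le_max_right _ _)
      have : P ≤ P ^ 2 := Nat.le_self_pow (by norm_num) P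
      omega
    · rw [Set.Finite.mem_toFinset]
      exact ⟨ha, hd⟩
  have hU1 : U.ncard ≤ ∑ P ∈ I, {a ∈ Bx g B W A | (P : ℤ) ^ 2 ∣ dis a}.ncard := by
    have h3 := Set.ncard_le_ncard hsub (Finset.finite_toSet _)
    rw [Set.ncard_coe_finset] at h3
    refine h3.trans (Finset.card_biUnion_le.trans (Finset.sum_le_sum fun P _ => ?_))
    rw [Set.ncard_eq_toFinset_card _ (hVf P)]
  have hM0 : M ≠ 0 := by omega
  have hMpos : (0 : ℝ) < M := by positivity
  have hU2 : (U.ncard : ℝ) ≤ K * X * (M : ℝ)⁻¹ := by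
    calc (U.ncard : ℝ) ≤ ∑ P ∈ I, ({a ∈ Bx g B W A | (P : ℤ) ^ 2 ∣ dis a}.ncard : ℝ) := by
          exact_mod_cast hU1
      _ ≤ ∑ P ∈ I, (K * X : ℝ) * ((P : ℝ) ^ 2)⁻¹ := by
          refine Finset.sum_le_sum fun P hP => ?_
          rw [hI, Finset.mem_filter, Finset.mem_Ioc] at hP
          obtain ⟨⟨hMP, _⟩, hPp, hPB, hPW⟩ := hP
          have h4 := one_prime h1 h2 hg A hW hWB hPp (by omega) hPB hPW
          have h5 : ({a ∈ Bx g B W A | (P : ℤ) ^ 2 ∣ dis a}.ncard : ℝ) * (P : ℝ) ^ 2 ≤ K * X := by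
            rw [hK, hX]
            exact_mod_cast h4
          have h6 : (0 : ℝ) < (P : ℝ) ^ 2 := by
            have : 0 < P := hPp.pos
            positivity
          rw [← div_eq_mul_inv, le_div_iff₀ h6]
          exact h5
      _ ≤ ∑ P ∈ Finset.Ioc M (max M B), (K * X : ℝ) * ((P : ℝ) ^ 2)⁻¹ := by
          refine Finset.sum_le_sum_of_subset_of_nonneg (Finset.filter_subset _ _) fun P _ _ => ?_
          positivity
      _ = (K * X : ℝ) * ∑ P ∈ Finset.Ioc M (max M B), ((P : ℝ) ^ 2)⁻¹ := by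
          rw [Finset.mul_sum]
      _ ≤ (K * X : ℝ) * ((M : ℝ)⁻¹ - ((max M B : ℕ) : ℝ)⁻¹) := by
          refine mul_le_mul_of_nonneg_left (sum_Ioc_inv_sq_le_sub hM0 (le_max_left _ _))
            (by positivity)
      _ ≤ K * X * (M : ℝ)⁻¹ := by
          refine mul_le_mul_of_nonneg_left ?_ (by positivity)
          have : (0 : ℝ) ≤ ((max M B : ℕ) : ℝ)⁻¹ := by positivity
          linarith
  have hKM : (L : ℝ) * (K : ℝ) ≤ M := by
    have : L * K ≤ M := by
      rw [hM, add_assoc]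
      exact Nat.le_add_right _ _
    exact_mod_cast this
  have hfin : (L : ℝ) * (U.ncard : ℝ) ≤ X := by
    have hX0 : (0 : ℝ) ≤ X := by positivity
    calc (L : ℝ) * (U.ncard : ℝ) ≤ L * (K * X * (M : ℝ)⁻¹) :=
          mul_le_mul_of_nonneg_left hU2 (Nat.cast_nonneg L)
      _ = (L * K) * (M : ℝ)⁻¹ * X := by ring
      _ ≤ 1 * X := by
          refine mul_le_mul_of_nonneg_right ?_ hX0
          rw [← div_eq_mul_inv, div_le_one hMpos]
          exact hKM
      _ = X := one_mul _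
  exact_mod_cast hfin

theorem smlk : Pool.Agent.N874.TC.S_SMLK := smlk0 Pool.Agent.N134.PQ.ld Pool.Agent.N134.PQ.bx

end Pool.Agent.N490.TF
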